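import Pool.Agent.W_52423f_h71s.Ext

set_option autoImplicit false

/-! Let `D` be a division algebra of finite dimension over `ℚ`, `V` a vector space over `D`, `T` a
vector space over `ℚ_p` with a commuting action of `D` and `log : V → T` a `D`-linear map.  The
following are equivalent for every `j ≥ 1`: the closure of `log L` has rank `rank L` for the finitely
generated subgroups `L` stable under `D` up to integers and of `D`-dimension at most `j`; the closure
of `log L` has rank at least `j / max (j, dim_D (D L)) · rank L` for all finitely generated `L`; almost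
all `m`-tuples generate a subgroup whose logarithms have a closure of rank `m`, with an explicit bound
for the number of the exceptions.  For `j = 1` these statements hold if `ℚ_p ⊗ D` is a division
algebra and `log` is injective, and if `D` is a field and the logarithms of `ℤ`-independent elements
are independent over the algebraic numbers.  If they hold for `j = 1` and the closure of `log L` has
rank at most `1`, then the subgroups of `D L` of the same rank with this property are, up to
commensurability, exactly the multiples `k L`, unless an algebraic irrational number of `ℚ_p` maps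
`log (ℚ L)` into itself. -/

namespace Pool.Agent.Results.MP_52423f_nt.AlmostAll

open Module TensorProduct Pool.Agent.W_52423f_h71s

theorem result (p : ℕ) [Fact p.Prime] (D : Type) [DivisionRing D] [CharZero D]
    [FiniteDimensional ℚ D] (V : Type) [AddCommGroup V] [Module D V] (T : Type) [AddCommGroup T]
    [Module ℚ_[p] T] [Module ℤ_[p] T] [IsScalarTower ℤ_[p] ℚ_[p] T] [Module D T]
    [SMulCommClass ℚ_[p] D T] [TopologicalSpace T] [IsTopologicalAddGroup T]
    [ContinuousSMul ℚ_[p] T] [T2Space T] (log : V →ₗ[D] T) :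
    (∀ L : AddSubgroup V, L.FG → ∃ r ≤ finrank ℤ L, HasRk p log (L : Set V) r) ∧
    (∀ j : ℕ, 1 ≤ j → List.TFAE [
      ∀ L : AddSubgroup V, L.FG → (∀ a : D, ∀ x ∈ L, ∃ k : ℤ, k ≠ 0 ∧ k • a • x ∈ L) →
        finrank D (Submodule.span D (L : Set V)) ≤ j → HasRk p log (L : Set V) (finrank ℤ L),
      ∀ L : AddSubgroup V, L.FG → ∀ r : ℕ, HasRk p log (L : Set V) r →
        j * finrank ℤ L ≤ max j (finrank D (Submodule.span D (L : Set V))) * r,
      ∀ (R : ℕ) (g : Fin R → V), LinearIndependent ℤ g → ∀ m B : ℕ,
        {x : Fin m → Fin R → ℤ | (∀ i l, |x i l| ≤ (B : ℤ)) ∧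
          ¬ HasRk p log (AddSubgroup.closure (Set.range fun i => ∑ l, x i l • g l) : Set V)
            m}.ncard ≤
        m * (2 * B + 1) ^ ((m - 1) * R +
          (m - 1) * max j (finrank D (Submodule.span D (Set.range g))) / j)]) ∧
    (((∀ z : ℚ_[p] ⊗[ℚ] D, z ≠ 0 → IsUnit z) ∧ (∀ x, log x = 0 → x = 0)) ∨
      ((∀ a b : D, a * b = b * a) ∧
        ∀ (n : ℕ) (v : Fin n → V), LinearIndependent ℤ v →
          ∀ a : Fin n → AlgebraicClosure ℚ_[p], (∀ i, IsAlgebraic ℚ (a i)) →
            ∑ i, a i ⊗ₜ[ℚ_[p]] log (v i) = 0 → a = 0) →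
      ∀ L : AddSubgroup V, L.FG → (∀ a : D, ∀ x ∈ L, ∃ k : ℤ, k ≠ 0 ∧ k • a • x ∈ L) →
        finrank D (Submodule.span D (L : Set V)) ≤ 1 → HasRk p log (L : Set V) (finrank ℤ L)) ∧
    ((∀ L : AddSubgroup V, L.FG → (∀ a : D, ∀ x ∈ L, ∃ k : ℤ, k ≠ 0 ∧ k • a • x ∈ L) →
        finrank D (Submodule.span D (L : Set V)) ≤ 1 → HasRk p log (L : Set V) (finrank ℤ L)) →
      ∀ (s : ℕ) (v : Fin s → V), LinearIndependent ℤ v →
        (∃ r ≤ 1, HasRk p log (AddSubgroup.closure (Set.range v) : Set V) r) →
          (∃ c : ℚ_[p], IsAlgebraic ℚ c ∧ (∀ q : ℚ, c ≠ q) ∧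
            ∀ i, ∃ b : Fin s → ℚ, c • log (v i) = log (∑ j, (b j : D) • v j)) ∨
          ∀ w : Fin s → V, LinearIndependent ℤ w → (∀ i, w i ∈ Submodule.span D (Set.range v)) →
            ((∃ r ≤ 1, HasRk p log (AddSubgroup.closure (Set.range w) : Set V) r) ↔
              ∃ (k : D) (g : Fin s → Fin s → ℚ), ∀ i, w i = k • ∑ j, (g i j : D) • v j)) := by
  let _ : Module ℚ V := Module.compHom V (algebraMap ℚ D)
  have : IsScalarTower ℚ D V := ⟨fun a b y => by
    rw [Algebra.smul_def, mul_smul]
    rfl⟩
  let _ : Module ℚ T := Module.compHom T (algebraMap ℚ ℚ_[p])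
  have : IsScalarTower ℚ ℚ_[p] T := ⟨fun a b y => by
    rw [Algebra.smul_def, mul_smul]
    rfl⟩
  refine ⟨fun L hL => part_one log L hL, fun j hj => ?_, ?_, fun h s v hv hr =>
    ext_class log (full_of_one log h) s v hv hr⟩
  · tfae_have 1 → 2 := fun h L hL r hr => two_of_full log (full_of_one log h) L hL r hr
    tfae_have 1 → 3 := fun h R g hg m B => count log hj (full_of_one log h) g hg m B
    tfae_have 2 → 1 := fun h L hL _ hLj => one_of_two log hj h L hL hLj
    tfae_have 3 → 1 := fun h L hL _ hLj => one_of_three log hj h L hL hLj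
    tfae_finish
  · rintro (⟨hu, hinj⟩ | ⟨hc, hind⟩) L hL _ hL1
    · exact one_of_two log le_rfl
        (fun L hL r hr => two_of_full log (full_one_of_units log hu hinj) L hL r hr) L hL hL1
    · exact line_of_indep log hc hind L hL hL1

end Pool.Agent.Results.MP_52423f_nt.AlmostAll
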