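import Pool.Agent.W_52423f_v9.FinMain

set_option autoImplicit false

/-! Let `A` be a simple abelian variety over `ℚ` which over the algebraic numbers has an elliptic curve
`V` without complex multiplication among its factors, and let `D` be a field in `End(A) ⊗ ℚ`, generated
by an endomorphism with minimal polynomial `g` of degree `d`.  Let `M` be a number field containing the
roots of `g` over which everything is defined.  A basis `f_1, ..., f_N` of `Hom(A, V)` maps `A(ℚ)` into
`V(M)^N` and the endomorphism becomes an integral matrix `T`.  The group generated by the `T^k x_b` is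
the image of the `D`-module generated by `μ` points, up to finite index. -/

open scoped Classical

namespace Pool.Agent.Results.MP_52423f_nt.CoefficientField

open Pool.Agent.PTwist PCL WeierstrassCurve WeierstrassCurve.Affine

theorem result (p : ℕ) [Fact p.Prime] {M : Type} [Field M] [NumberField M]
    (V : WeierstrassCurve M) [V.IsElliptic] (hcm : NoCM V) (ι : M →+* ℂ_[p]) {N μ m : ℕ}
    (T : Matrix (Fin N) (Fin N) ℤ) (g : Polynomial ℚ) (hg : Squarefree g)
    (hs : (g.map (algebraMap ℚ M)).Splits)
    (hT : Polynomial.aeval (T.map (Int.cast : ℤ → ℚ)) g = 0)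
    (x : Fin μ → Fin N → V.toAffine.Point) (hL : SimplePos (torb T x))
    (hm : Module.finrank ℤ (torb T x) = m) :
    ∃ r : ℕ, (∀ r' : ℕ, HasRank (fun _ : Fin N => V.map ι) p r'
        (clos (fun _ : Fin N => V.map ι)
          ((fun P i => pmap V ι (P i)) '' (torb T x : Set (Fin N → V.toAffine.Point)))) ↔ r' = r) ∧
      r ≤ m ∧ N * (m - r) ≤ 2 * r * (μ * min (m - r) g.natDegree) ∧
      ∀ f : ℕ, 1 ≤ f →
        (∀ q : Polynomial ℚ_[p], Irreducible q → q ∣ g.map (algebraMap ℚ ℚ_[p]) →
          f ≤ q.natDegree) →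
        2 * μ * (m - f) < N →
        r = m ∧ ∀ L' : AddSubgroup (Fin N → V.toAffine.Point), L'.FG →
          (∀ P ∈ L', ∃ k : ℤ, k ≠ 0 ∧ k • P ∈ torb T x) →
          HasRank (fun _ : Fin N => V.map ι) p (Module.finrank ℤ L')
            (clos (fun _ : Fin N => V.map ι)
              ((fun P i => pmap V ι (P i)) '' (L' : Set (Fin N → V.toAffine.Point)))) := by
  obtain ⟨r, hrm, hR, hineq, hstep⟩ := main_coeff (p := p) V hcm ι T g hg hs hT x hL hm
  refine ⟨r, fun r' => ⟨fun h => hasRank_unique _ h hR, fun h => h ▸ hR⟩, hrm, hineq,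
    fun f hf1 hf hN => ?_⟩
  have hrm' : r = m := by
    rcases hrm.lt_or_eq with h | h
    · exfalso
      have h1 : r + f ≤ m := hstep h f hf
      have h2 : 2 * r * (μ * min (m - r) g.natDegree) ≤ (2 * μ * (m - f)) * (m - r) := by
        calc 2 * r * (μ * min (m - r) g.natDegree) ≤ 2 * (m - f) * (μ * (m - r)) :=
              Nat.mul_le_mul (Nat.mul_le_mul_left _ (by omega))
                (Nat.mul_le_mul_left _ (min_le_left _ _))
          _ = (2 * μ * (m - f)) * (m - r) := by ring
      have h3 : N * (m - r) ≤ (2 * μ * (m - f)) * (m - r) := hineq.trans h2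
      have h4 : N ≤ 2 * μ * (m - f) := Nat.le_of_mul_le_mul_right h3 (by omega)
      omega
    · exact h
  refine ⟨hrm', fun L' hfg' hL' => ?_⟩
  refine full_sub (p := p) V ι (torb T x) L' (torb_fg T x) hfg' hL' ?_
  rw [hm]
  exact hrm' ▸ hR

end Pool.Agent.Results.MP_52423f_nt.CoefficientField
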