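import Pool.Agent.W_52423f_h21.Fin

set_option autoImplicit false

/-! Let `A` be a simple abelian variety over `ℚ` which has an elliptic curve `V` among its factors over
the algebraic numbers, with or without complex multiplication.  Let `M` be a number field over which
everything is defined, `N` the rank of `Hom(A, V)`.  A basis `f_1, ..., f_N` of `Hom(A, V)` maps a
subgroup of `A(ℚ)` of rank `m` onto a subgroup `L` of `V(M)^N` as in the theorem.  The `p`-adic closure
has `ℤ_p`-rank `r ≥ m N / (N + 2 m)`, hence `r = m` if `N > 2 m (m - 1)`, and `r ≥ m N / (m + 2 N)` without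
complex multiplication; for `k ≤ r` almost all `k`-tuples of elements of the group generate a group whose
closure has rank `k`. -/

open scoped Classical

namespace Pool.Agent.Results.MP_52423f_nt.EllipticClosure

open Pool.Agent.PTwist PCL WeierstrassCurve WeierstrassCurve.Affine

theorem result (p : ℕ) [Fact p.Prime] {M : Type} [Field M] [NumberField M]
    (V : WeierstrassCurve M) [V.IsElliptic] {O : Type} [CommRing O] [IsDomain O] [CharZero O]
    (A : EndAct V O) (σ : O ≃+* O) (hσ : ∀ a, σ (σ a) = a)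
    (hfix : ∀ a, σ a = a → ∃ n : ℤ, a = n) (ι : M →+* ℂ_[p]) {N m : ℕ}
    (L : AddSubgroup (Fin N → V.toAffine.Point)) (hL : SimplePos L) (hsym : ConjSym A σ L)
    (hfg : L.FG) (hm : Module.finrank ℤ L = m) :
    ∃ r : ℕ, (∀ r' : ℕ, HasRank (fun _ : Fin N => V.map ι) p r'
        (clos (fun _ : Fin N => V.map ι)
          ((fun P i => pmap V ι (P i)) '' (L : Set (Fin N → V.toAffine.Point)))) ↔ r' = r) ∧
      r ≤ m ∧ m * N ≤ r * (N + 2 * m) ∧
      ((∀ a : O, ∃ n : ℤ, a = n) → m * N ≤ r * (m + 2 * N)) ∧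
      ∀ g : Fin m → Fin N → V.toAffine.Point, (∀ j, g j ∈ L) → LinearIndependent ℤ g →
        ∀ k w B : ℕ, (k ≤ r ∧ w + 1 = m) ∨ (k - 1) * (N + 2 * (w + 1)) < (w + 1) * N →
        {x : Fin k → Fin m → ℤ | (∀ i j, |x i j| ≤ (B : ℤ)) ∧
          ¬ HasRank (fun _ : Fin N => V.map ι) p k
            (clos (fun _ : Fin N => V.map ι)
              ((fun P i => pmap V ι (P i)) ''
                (AddSubgroup.closure (Set.range fun i => ∑ j, x i j • g j) :
                  Set (Fin N → V.toAffine.Point))))}.ncard ≤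
          k * (2 * B + 1) ^ ((k - 1) * m + w) := by
  obtain ⟨r, h1, h2, h3, h4, h5⟩ :=
    Pool.Agent.W_52423f_h21.main (p := p) (ι := ι) A σ hσ hfix hL hsym hfg hm
  refine ⟨r, h1, h2, h3, h4, fun g hg hgi k w B hcond => h5 g hg hgi k w B ?_⟩
  rcases hcond with h | h
  · exact Or.inl h
  · exact Or.inr (Or.inl h)

end Pool.Agent.Results.MP_52423f_nt.EllipticClosure
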