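import Pool.Agent.W_52423f_h99.GfH

set_option autoImplicit false

/-! Let `A` be the twist `E ⊗ Λ` of a power `E ^ n` of an elliptic curve over a number field `F`
(more precisely its restriction of scalars to `ℚ`).  Then the `p`-adic closure of every subgroup
of rank `m` of `A(ℚ)` has a `ℤ_p`-rank `r ≤ m` with `m - r ≤ [F : ℚ] ⌊2 m ^ 2 / (n + 2 m)⌋`, and
`r = m` if `2 m (m - 1) < n`. -/

open scoped Classical

namespace Pool.Agent.Results.MP_52423f_nt.TwistRank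

open Pool.Agent.PTwist WeierstrassCurve WeierstrassCurve.Affine

theorem result {F M : Type} [Field F] [NumberField F] [Field M] [NumberField M] [Algebra F M]
    [IsGalois F M] (p : ℕ) [Fact p.Prime] (W : WeierstrassCurve F) [W.IsElliptic] {n m : ℕ}
    (ρ : (M ≃ₐ[F] M) →* Matrix.GeneralLinearGroup (Fin n) ℤ) (hρ : Irr ρ)
    (ι : (F →+* ℂ_[p]) → (M →+* ℂ_[p])) (hι : ∀ a, (ι a).comp (algebraMap F M) = a)
    (L : AddSubgroup (Fin n → (W⁄M).toAffine.Point)) (hL : ∀ P ∈ L, IsTw W ρ P) (hfg : L.FG)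
    (hm : Module.finrank ℤ L = m) :
    ∃ r : ℕ, (∀ r' : ℕ, HasRank (fun t : (F →+* ℂ_[p]) × Fin n => (W⁄M).map (ι t.1)) p r'
        (clos (fun t : (F →+* ℂ_[p]) × Fin n => (W⁄M).map (ι t.1))
          ((fun P t => pmap (W⁄M) (ι t.1) (P t.2)) ''
            (L : Set (Fin n → (W⁄M).toAffine.Point)))) ↔ r' = r) ∧
      r ≤ m ∧ m ≤ r + Module.finrank ℚ F * (2 * m ^ 2 / (n + 2 * m)) ∧
      (2 * m * (m - 1) < n → r = m) :=
  PCL.main_H W ρ hρ ι hι L hL hfg hm

end Pool.Agent.Results.MP_52423f_nt.TwistRank
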